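import Mathlib
import Pool.Agent.E8helper75.F3.Stm
import Pool.Agent.E8helper51.QK.Sel

/-!
# Project F3, SHAG (helper51): the descent for `y² = x³ + u D x` over `ℚ(i)`, `u = ± (1 + i)³`

Adapted from `Pool/Agent/E8helper51/QK/Sel.lean` and `Pool/Agent/E8helper89/EW/Sha.lean`.
-/

set_option autoImplicit false
set_option linter.unusedSectionVars false

open NumberField IsDedekindDomain

namespace Pool.Agent.E8helper51.F3

open WithZero
open Pool.Agent.E8helper75.F3 (BG U3 gR S_SHAG)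
open Pool.Agent.Y682 (S1 S2 vv vv_coe IsT Zc Zc_card Zc_lower LL1 LL2 Sq quot_eq)
open Pool.Agent.Y699 (PP qr pi1 pi1_prime plc pg pg_span pg_prime plc_pg)
open Pool.Agent.Y715.Z (em0 em0_ne em0_inj em0_apply plc_mem val_lt val_le val_one val_z val_sqf ph
  not_dvd_of_loc hens_odd exp_sq exists_sqf im1_sq S2_S1 cls1)
open H385 (ZI RQ im1 nrm)
open Pool.Agent.Y697.MQ (OP leg ci gA leg_mul leg_I leg_ne ci_ne leg_eq_zero leg_congr
  prim_iff_Pr unit_cases leg_prod sgn_prod gA_eq)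
open Pool.Agent.R428.G (sqf_prod pi_dvd l2_place near_one L2 w_i exp_lt_one')
open Pool.Agent.E8helper51.QK (loc_bad3 exp_odd)

/-- the local image above two -/
lemma locF {L : Type} [Field L] {w : Valuation L ℤᵐ⁰} {B m : L} (hB : w B = exp (-3 : ℤ))
    (h : S1 0 B m) : ∃ g : L, g ≠ 0 ∧ (w (m * g ^ 2 - 1) ≤ exp (-2 : ℤ) ∨
      w (B / m * g ^ 2 - 1) ≤ exp (-2 : ℤ)) := by
  have hB0 : B ≠ 0 := (Valuation.ne_zero_iff w).1 (by rw [hB]; exact exp_ne_zero)
  rcases h with h | h | ⟨hm, y, hy⟩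
  · refine ⟨1, one_ne_zero, Or.inl ?_⟩
    rw [h, one_pow, mul_one, sub_self, map_zero]
    exact zero_le
  · refine ⟨1, one_ne_zero, Or.inr ?_⟩
    rw [h, div_self hB0, one_pow, mul_one, sub_self, map_zero]
    exact zero_le
  · have hwm : w m ≠ 0 := (Valuation.ne_zero_iff _).2 hm
    rw [zero_mul, add_zero] at hy
    obtain ⟨k, hk⟩ : ∃ k : ℤ, w m = exp k := ⟨log (w m), (exp_log hwm).symm⟩
    have hm2 : w (m ^ 2) = exp (2 * k) := by
      rw [map_pow, hk, ← exp_nsmul]
      congr 1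
    have e := congrArg w hy
    rw [map_pow, map_mul] at e
    by_cases h0 : -1 ≤ k
    · have h2 : w (m ^ 2 + B) = exp (2 * k) := by
        rw [Valuation.map_add_eq_of_lt_left, hm2]
        rw [hB, hm2, exp_lt_exp]
        omega
      by_cases h00 : k = -1
      · exfalso
        rw [h2, hk, h00, ← exp_add] at e
        exact exp_odd e (by omega)
      · have h3 : m ^ 2 + B ≠ 0 := (Valuation.ne_zero_iff w).1 (by rw [h2]; exact exp_ne_zero)
        have hy0 : y ≠ 0 := by
          rintro rfl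
          rw [zero_pow two_ne_zero] at hy
          exact mul_ne_zero hm h3 hy.symm
        refine ⟨m / y, div_ne_zero hm hy0, Or.inl ?_⟩
        have e1 : m * (m / y) ^ 2 - 1 = -(B / (m ^ 2 + B)) := by
          rw [div_pow, hy]
          field_simp
          ring
        rw [e1, Valuation.map_neg, map_div₀, hB, h2, ← exp_sub, exp_le_exp]
        omega
    · have h2 : w (m ^ 2 + B) = exp (-3 : ℤ) := by
        rw [Valuation.map_add_eq_of_lt_right, hB]
        rw [hB, hm2, exp_lt_exp]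
        omega
      by_cases h00 : k = -2
      · exfalso
        rw [h2, hk, h00, ← exp_add] at e
        exact exp_odd e (by omega)
      · have h3 : m ^ 2 + B ≠ 0 := (Valuation.ne_zero_iff w).1 (by rw [h2]; exact exp_ne_zero)
        have hy0 : y ≠ 0 := by
          rintro rfl
          rw [zero_pow two_ne_zero] at hy
          exact mul_ne_zero hm h3 hy.symm
        refine ⟨m / y, div_ne_zero hm hy0, Or.inr ?_⟩
        have e1 : B / m * (m / y) ^ 2 - 1 = -(m ^ 2 / (m ^ 2 + B)) := by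
          rw [div_pow, hy]
          field_simp
          ring
        rw [e1, Valuation.map_neg, map_div₀, hm2, h2, ← exp_sub, exp_le_exp]
        omega

/-- translation by the point of order two -/
lemma S1_dual {F : Type} [Field F] {B m : F} (hB : B ≠ 0) (h : S1 0 B m) : S1 0 B (B / m) := by
  rcases h with h | h | ⟨hm, y, hy⟩
  · right; left
    rw [h, div_one]
  · left
    rw [h, div_self hB]
  · right; right
    refine ⟨div_ne_zero hB hm, B * y / m ^ 2, ?_⟩
    rw [div_pow, mul_pow, hy]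
    field_simp
    ring

lemma one_of_near {L : Type} [Field L] {w : Valuation L ℤᵐ⁰} {x : L} {n : ℤ} (hn : n < 0)
    (h : w (x - 1) ≤ exp n) : w x = 1 := by
  have e : x = 1 + (x - 1) := by ring
  rw [e, Valuation.map_add_eq_of_lt_left, map_one]
  rw [map_one]
  exact lt_of_le_of_lt h (exp_lt_one' hn)

lemma one_of_sq {g : ℤᵐ⁰} (h : g ^ 2 = 1) : g = 1 := by
  rcases lt_trichotomy g 1 with h1 | h1 | h1
  · exact absurd h (ne_of_lt (pow_lt_one₀ zero_le h1 two_ne_zero))
  · exact h1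
  · exact absurd h (ne_of_gt (one_lt_pow₀ h1 two_ne_zero))

/-- the unit is not `i` or `-i` -/
lemma no_iF {L : Type} [Field L] {w : Valuation L ℤᵐ⁰} {i : L} (H : L2 w i) {X q : L}
    (hX : w (X - 1) ≤ exp (-3 : ℤ))
    (h : w (X * i * q ^ 2 - 1) ≤ exp (-2 : ℤ) ∨ w (X * (-i) * q ^ 2 - 1) ≤ exp (-2 : ℤ)) :
    False := by
  have hX1 := one_of_near (by norm_num) hX
  have hi := H.hi
  have hwi := w_i (w := w) H.hi
  have hq : w q = 1 := by
    apply one_of_sq
    rcases h with h | h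
    · have := one_of_near (by norm_num) h
      rwa [map_mul, map_mul, hX1, hwi, one_mul, one_mul, map_pow] at this
    · have := one_of_near (by norm_num) h
      rwa [map_mul, map_mul, hX1, Valuation.map_neg, hwi, one_mul, one_mul, map_pow] at this
  have h1 : w ((X - 1) * q ^ 2) ≤ exp (-2 : ℤ) := by
    rw [map_mul, map_pow, hq, one_pow, mul_one]
    exact hX.trans (exp_le_exp.2 (by norm_num))
  refine H.no_sq (q := q) ?_
  rcases h with h | h
  · left
    have e1 : q ^ 2 + i = (-i) * (X * i * q ^ 2 - 1) - (X - 1) * q ^ 2 := by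
      linear_combination (X * q ^ 2) * hi
    rw [e1]
    refine (Valuation.map_sub _ _ _).trans (max_le ?_ h1)
    rw [map_mul, Valuation.map_neg, hwi, one_mul]
    exact h
  · right
    have e1 : q ^ 2 - i = i * (X * (-i) * q ^ 2 - 1) - (X - 1) * q ^ 2 := by
      linear_combination (X * q ^ 2) * hi
    rw [e1]
    refine (Valuation.map_sub _ _ _).trans (max_le ?_ h1)
    rw [map_mul, hwi, one_mul]
    exact h

/-- the subsets which satisfy the conditions -/
theorem T_cF {S T : Finset GaussianInt} (hS : ∀ l ∈ S, OP l) (hTS : T ⊆ S)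
    (hker : ∀ t : GaussianInt → ZMod 2,
      (∀ v ∈ S, gR v * t v + ∑ w ∈ S, gA v w * (t v + t w) = 0) → ∀ v ∈ S, t v = 0)
    (hpi : ∀ p ∈ S, ¬ p ∣ pi1)
    (h1 : ∀ p ∈ T, leg p pi1 * leg p (∏ l ∈ S \ T, l) = 1)
    (h2 : ∀ p ∈ S, p ∉ T → leg p (∏ l ∈ T, l) = 1) : T = ∅ := by
  classical
  have hval : ∀ p ∈ S, ∀ U ⊆ S, p ∉ U →
      (if leg p (∏ l ∈ U, l) = -1 then (1 : ZMod 2) else 0) = ∑ l ∈ U, gA p l := by
    intro p hp U hU hpU
    rw [leg_prod (hS p hp).pr, (sgn_prod U (fun l => leg p l) (fun l hl => leg_ne fun h3 => hpU (by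
      rw [(hS p hp).dvd (hS l (hU hl)) h3]; exact hl))).2]
    exact Finset.sum_congr rfl fun l hl => (gA_eq (hS p hp) (hS l (hU hl))
      (fun h => hpU (h ▸ hl))).symm
  set t : GaussianInt → ZMod 2 := fun v => if v ∈ T then 1 else 0 with ht
  have h22 : ∀ x : ZMod 2, x + x = 0 := by decide
  have hsum : ∀ v ∈ S, ∑ w ∈ S, gA v w * (t v + t w) =
      if v ∈ T then ∑ w ∈ S \ T, gA v w else ∑ w ∈ T, gA v w := by
    intro v hv
    have h3 : ∀ w, t v + t w = (if v ∈ T then 1 else 0) + (if w ∈ T then 1 else 0) := by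
      intro w
      simp only [ht]
    simp_rw [h3]
    split_ifs with hvT
    · rw [← Finset.sum_sdiff hTS, add_eq_left.2 (Finset.sum_eq_zero fun w hw => by
        rw [if_pos hw, h22, mul_zero])]
      refine Finset.sum_congr rfl fun w hw => ?_
      rw [if_neg (Finset.mem_sdiff.1 hw).2, add_zero, mul_one]
    · rw [← Finset.sum_sdiff hTS, add_eq_right.2 (Finset.sum_eq_zero fun w hw => by
        rw [if_neg (Finset.mem_sdiff.1 hw).2, add_zero, mul_zero])]
      refine Finset.sum_congr rfl fun w hw => ?_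
      rw [if_pos hw, zero_add, mul_one]
  have hconst := hker t (by
    intro v hv
    rw [hsum v hv]
    by_cases hvT : v ∈ T
    · have htv : t v = 1 := by simp only [ht]; rw [if_pos hvT]
      rw [if_pos hvT, htv, mul_one]
      have h4 := hval v hv (S \ T) Finset.sdiff_subset (fun h => (Finset.mem_sdiff.1 h).2 hvT)
      have h5 := h1 v hvT
      rw [← h4]
      unfold gR
      rcases leg_ne (hpi v hv) with h6 | h6
      · rw [h6, one_mul] at h5
        rw [h6, h5]
        decide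
      · rw [h6] at h5
        have h7 : leg v (∏ l ∈ S \ T, l) = -1 := by linarith
        rw [h6, h7]
        decide
    · have htv : t v = 0 := by simp only [ht]; rw [if_neg hvT]
      rw [if_neg hvT, htv, mul_zero, zero_add]
      have h4 := hval v hv T hTS hvT
      rw [h2 v hv hvT, if_neg (by norm_num)] at h4
      exact h4.symm)
  by_contra hTe
  obtain ⟨p, hp⟩ := Finset.nonempty_iff_ne_empty.2 hTe
  have h3 := hconst p (hTS hp)
  simp only [ht] at h3
  rw [if_pos hp] at h3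
  exact absurd h3 (by decide)

lemma U3_cases {U : ZI} (hU : U3 U) : U = pi1 ^ 3 ∨ U = -pi1 ^ 3 := by
  rcases hU with rfl | rfl
  · left; decide
  · right; decide

lemma not_dvd_pi1 {p : GaussianInt} (hp : OP p) : ¬ p ∣ pi1 := by
  intro h
  apply hp.two
  have h3 : (2 : ZI) = pi1 * (pi1 * (-im1)) := by decide
  rw [h3]
  exact h.mul_right _

lemma not_dvd_U {p U : GaussianInt} (hp : OP p) (hU : U3 U) : ¬ p ∣ U := by
  intro h
  apply not_dvd_pi1 hp
  rcases U3_cases hU with rfl | rfl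
  · exact hp.pr.dvd_of_dvd_pow h
  · exact hp.pr.dvd_of_dvd_pow ((dvd_neg).1 h)

lemma leg_neg1 {p : GaussianInt} (hp : OP p) : leg p (-1) = 1 := by
  have h1 : (-1 : GaussianInt) = im1 * im1 := by decide
  have hI : leg p im1 = ci p := leg_I hp
  rw [h1, leg_mul hp.pr, hI]
  rcases ci_ne hp.pm with h | h <;> rw [h] <;> norm_num

lemma leg_one' {p : GaussianInt} (hp : OP p) : leg p 1 = 1 := by
  have h1 : (1 : GaussianInt) = (-1) * (-1) := by decide
  rw [h1, leg_mul hp.pr, leg_neg1 hp]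
  norm_num

lemma leg_U {p U : GaussianInt} (hp : OP p) (hU : U3 U) : leg p U = leg p pi1 := by
  have h3 : leg p (pi1 ^ 3) = leg p pi1 := by
    rw [show pi1 ^ 3 = pi1 * (pi1 * pi1) by ring, leg_mul hp.pr, leg_mul hp.pr]
    rcases leg_ne (not_dvd_pi1 hp) with h | h <;> rw [h] <;> norm_num
  rcases U3_cases hU with rfl | rfl
  · exact h3
  · rw [show (-pi1 ^ 3 : GaussianInt) = (-1) * pi1 ^ 3 by ring, leg_mul hp.pr, leg_neg1 hp, one_mul,
      h3]

section

variable {K : Type} [Field K] [NumberField K] (e : ZI ≃+* 𝓞 K)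

lemma U_ne {U : ZI} (hU : U3 U) : U ≠ 0 := by
  rcases U3_cases hU with rfl | rfl
  · exact pow_ne_zero 3 pi1_prime.ne_zero
  · exact neg_ne_zero.2 (pow_ne_zero 3 pi1_prime.ne_zero)

lemma BG_ne {S : Finset GaussianInt} (hS : ∀ l ∈ S, OP l) {U : ZI} (hU : U3 U) : BG U S ≠ 0 :=
  mul_ne_zero (U_ne hU) (Finset.prod_ne_zero_iff.2 fun l hl => (hS l hl).pr.ne_zero)

lemma pi_not_dvd {S : Finset GaussianInt} (hS : ∀ l ∈ S, OP l) : ¬ pi1 ∣ ∏ l ∈ S, l := by
  intro h
  have h1 := pi_dvd hS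
  have h2 : pi1 ∣ (∏ l ∈ S, l) - 1 := (dvd_pow_self pi1 three_ne_zero).trans h1
  have h3 : pi1 ∣ 1 := by
    have := dvd_sub h h2
    rwa [sub_sub_cancel] at this
  exact pi1_prime.not_isUnit (isUnit_of_dvd_one h3)

/-- the value of the coefficient above two -/
lemma val_BG {S : Finset GaussianInt} (hS : ∀ l ∈ S, OP l) {U : ZI} (hU : U3 U) :
    (plc e pi1_prime : HeightOneSpectrum (𝓞 K)).valuation K (em0 e (BG U S)) = exp (-3 : ℤ) := by
  have h1 : (plc e pi1_prime : HeightOneSpectrum (𝓞 K)).valuation K (em0 e (pi1 ^ 3)) =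
      exp (-3 : ℤ) := by
    rw [map_pow, map_pow, val_z, ← exp_nsmul]
    congr 1
  have h2 := val_one e (K := K) pi1_prime (pi_not_dvd hS)
  unfold BG
  rw [map_mul, map_mul, h2, mul_one]
  rcases U3_cases hU with rfl | rfl
  · exact h1
  · rw [map_neg, Valuation.map_neg]
    exact h1

/-- the members of the Selmer group which are units above two -/
theorem selA {S : Finset GaussianInt} (hS : ∀ l ∈ S, OP l)
    (hker : ∀ t : GaussianInt → ZMod 2,
      (∀ v ∈ S, gR v * t v + ∑ w ∈ S, gA v w * (t v + t w) = 0) → ∀ v ∈ S, t v = 0)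
    {U : ZI} (hU : U3 U) {b : K} (hb : b ≠ 0)
    (h : ∀ v : HeightOneSpectrum (𝓞 K), ∃ y m : v.adicCompletion K, y ≠ 0 ∧
      algebraMap K (v.adicCompletion K) b * y ^ 2 = m ∧
        S1 0 (algebraMap K (v.adicCompletion K) (em0 e (BG U S))) m)
    (hπ : ∃ g : (plc e pi1_prime).adicCompletion K,
      vv (plc e pi1_prime) (ph e pi1_prime b * g ^ 2 - 1) ≤ exp (-2 : ℤ)) :
    ∃ c : K, b = c ^ 2 := by
  classical
  obtain ⟨d, w, hd, hw, hbd⟩ := exists_sqf e hb
  obtain ⟨g, hg⟩ := hπ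
  have hDsq : Squarefree (∏ l ∈ S, l) := sqf_prod hS
  have hg2 : vv (plc e pi1_prime) (ph e pi1_prime (em0 e d) * (ph e pi1_prime w * g) ^ 2 - 1) ≤
      exp (-2 : ℤ) := by
    convert hg using 2
    rw [hbd, map_mul, map_pow]
    ring
  have hpid : ¬ pi1 ∣ d := by
    intro hpd
    have h1 := one_of_near (by norm_num) hg2
    rw [map_mul, vv_coe, val_sqf e pi1_prime hd hpd, map_pow] at h1
    apply exp_odd (g := vv (plc e pi1_prime) (ph e pi1_prime w * g)) (k := 1) _ (by omega)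
    have h2 : (exp (1 : ℤ) : ℤᵐ⁰) * exp (-1 : ℤ) = 1 := by rw [← exp_add]; norm_num
    calc (vv (plc e pi1_prime) (ph e pi1_prime w * g)) ^ 2
        = (exp (1 : ℤ) * exp (-1 : ℤ)) * (vv (plc e pi1_prime) (ph e pi1_prime w * g)) ^ 2 := by
          rw [h2, one_mul]
      _ = exp (1 : ℤ) * (exp (-1 : ℤ) * (vv (plc e pi1_prime) (ph e pi1_prime w * g)) ^ 2) := by
          rw [mul_assoc]
      _ = exp (1 : ℤ) := by rw [h1, mul_one]
  -- the primes of `d`
  have hprime : ∀ ρ : ZI, Prime ρ → ρ ∣ d → ρ ∣ ∏ l ∈ S, l := by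
    intro ρ hρ hρd
    by_contra hρD
    refine not_dvd_of_loc e hρ (D := BG U S) (fun h' => ?_) hd hw hbd (h (plc e hρ)) hρd
    rcases hρ.dvd_or_dvd h' with h1 | h1
    · have h2 : ρ ∣ pi1 := by
        rcases U3_cases hU with h3 | h3
        · rw [h3] at h1; exact hρ.dvd_of_dvd_pow h1
        · rw [h3] at h1; exact hρ.dvd_of_dvd_pow ((dvd_neg).1 h1)
      exact hpid (((hρ.dvd_prime_iff_associated pi1_prime).1 h2).symm.dvd.trans hρd)
    · exact hρD h1
  set T := S.filter (fun l => l ∣ d) with hT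
  have hTS : T ⊆ S := Finset.filter_subset _ _
  have hcop : ∀ a ∈ S, ∀ b ∈ S, a ≠ b → IsCoprime a b := fun a ha b hb hab =>
    ((hS a ha).pr.irreducible.coprime_iff_not_dvd).2 fun h1 => hab ((hS a ha).dvd (hS b hb) h1)
  have hTd : (∏ l ∈ T, l) ∣ d := by
    refine Finset.prod_dvd_of_coprime ?_ ?_
    · intro i hi j hj hij
      exact hcop i (hTS hi) j (hTS hj) hij
    · intro i hi
      exact (Finset.mem_filter.1 hi).2
  obtain ⟨u, hu⟩ := hTd
  have huu : IsUnit u := by
    by_contra hnu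
    have hu0 : u ≠ 0 := by
      rintro rfl
      exact hd.ne_zero (by rw [hu, mul_zero])
    obtain ⟨ρ, hρ, hρu⟩ := WfDvdMonoid.exists_irreducible_factor hnu hu0
    have hρ' : Prime ρ := irreducible_iff_prime.1 hρ
    have h1 : ρ ∣ d := by rw [hu]; exact hρu.mul_left _
    have h2 := hprime ρ hρ' h1
    obtain ⟨l, hl, hρl⟩ := (hρ'.dvd_finsetProd_iff _).1 h2
    have h3 : l ∣ ρ := by
      obtain ⟨c, hc⟩ := hρl
      rcases (hS l hl).pr.irreducible.isUnit_or_isUnit hc with h4 | h4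
      · exact absurd h4 hρ'.not_isUnit
      · obtain ⟨c', hc'⟩ := h4.exists_right_inv
        exact ⟨c', by rw [hc, mul_assoc, hc', mul_one]⟩
    have h4 : l ∈ T := Finset.mem_filter.2 ⟨hl, h3.trans h1⟩
    have h5 : l * l ∣ d := by
      rw [hu]
      exact mul_dvd_mul (Finset.dvd_prod_of_mem _ h4) (h3.trans hρu)
    exact (hS l hl).pr.not_isUnit (hd _ h5)
  have hnu : ∀ p : ZI, Prime p → ¬ p ∣ u := fun p hp h' => hp.not_isUnit (isUnit_of_dvd_unit h' huu)
  have hmem : ∀ (V : Finset ZI), V ⊆ S → ∀ p ∈ S, p ∣ ∏ l ∈ V, l → p ∈ V := by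
    intro V hV p hp h'
    obtain ⟨l, hl, hpl⟩ := ((hS p hp).pr.dvd_finsetProd_iff _).1 h'
    rw [(hS p hp).dvd (hS l (hV hl)) hpl]
    exact hl
  have hDT : (∏ l ∈ S, l) = (∏ l ∈ T, l) * ∏ l ∈ S \ T, l := by
    rw [mul_comm]; exact (Finset.prod_sdiff hTS).symm
  -- the unit is `1` or `-1`
  have hu1 : u = 1 ∨ u = -1 := by
    by_contra hcon
    have hI : u = im1 ∨ u = -im1 := by
      rcases unit_cases huu with h1 | h1 | h1 | h1
      · exact absurd (Or.inl h1) hcon
      · exact absurd (Or.inr h1) hcon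
      · exact Or.inl h1
      · right
        rw [h1]
        decide
    have hL2 := l2_place e (plc e pi1_prime : HeightOneSpectrum (𝓞 K)) rfl
    have ha := near_one e (pi_dvd fun l hl => hS l (hTS hl))
      (plc e pi1_prime : HeightOneSpectrum (𝓞 K)) rfl
    refine no_iF hL2 ha (q := ph e pi1_prime w * g) ?_
    rcases hI with h1 | h1
    · left
      convert hg2 using 2
      rw [hu, h1, map_mul, map_mul]
    · right
      convert hg2 using 2
      rw [hu, h1, map_mul, map_mul, map_neg, map_neg]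
  have hval : ∀ (p : ZI) (hp : p ∈ S), (plc e (hS p hp).pr : HeightOneSpectrum (𝓞 K)).valuation K
      (em0 e (BG U S)) = exp (-1 : ℤ) := by
    intro p hp
    unfold BG
    rw [map_mul, map_mul, val_one e (hS p hp).pr (not_dvd_U (hS p hp) hU), one_mul]
    exact val_sqf e (hS p hp).pr hDsq (Finset.dvd_prod_of_mem _ hp)
  have hlu : ∀ p ∈ S, leg p u = 1 := by
    intro p hp
    rcases hu1 with h1 | h1
    · rw [h1]; exact leg_one' (hS p hp)
    · rw [h1]; exact leg_neg1 (hS p hp)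
  have huu1 : u * u = 1 := by
    rcases hu1 with h1 | h1 <;> rw [h1] <;> decide
  have hT1 := T_cF hS hTS hker (fun p hp => not_dvd_pi1 (hS p hp)) ?_ ?_
  · rw [hT1, Finset.prod_empty, one_mul] at hu
    rcases hu1 with h2 | h2
    · exact ⟨w, by rw [hbd, hu, h2, map_one, one_mul]⟩
    · refine ⟨em0 e im1 * w, ?_⟩
      rw [hbd, hu, h2, mul_pow, im1_sq, map_neg, map_one]
  · intro p hp
    have hpS := hTS hp
    have hpD' : ¬ p ∣ ∏ l ∈ S \ T, l := fun h' =>
      (Finset.mem_sdiff.1 (hmem (S \ T) Finset.sdiff_subset p hpS h')).2 hp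
    have h6 := (loc_bad3 (d' := u * (U * ∏ l ∈ S \ T, l)) (u := 1) e (hS p hpS).pr (hS p hpS)
      (BG_ne hS hU) (hval p hpS) hw hbd (h (plc e (hS p hpS).pr))).2 hd (Finset.mem_filter.1 hp).2
      (by
        unfold BG
        rw [hDT]
        rw [hu]
        linear_combination (U * (∏ l ∈ T, l) * ∏ l ∈ S \ T, l) * huu1) (by
        intro h7
        rcases (hS p hpS).pr.dvd_or_dvd h7 with h8 | h8
        · exact hnu p (hS p hpS).pr h8
        · rcases (hS p hpS).pr.dvd_or_dvd h8 with h9 | h9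
          · exact not_dvd_U (hS p hpS) hU h9
          · exact hpD' h9)
    rw [leg_mul (hS p hpS).pr, leg_mul (hS p hpS).pr, hlu p hpS, one_mul, leg_U (hS p hpS) hU] at h6
    exact h6
  · intro p hp hpT
    have hpd : ¬ p ∣ d := fun h' => hpT (Finset.mem_filter.2 ⟨hp, h'⟩)
    have h6 := (loc_bad3 (d' := 1) (u := 1) e (hS p hp).pr (hS p hp) (BG_ne hS hU)
      (hval p hp) hw hbd (h (plc e (hS p hp).pr))).1 hpd
    rw [hu, leg_mul (hS p hp).pr, hlu p hp, mul_one] at h6
    exact h6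

/-- **the Selmer group** -/
theorem selF {S : Finset GaussianInt} (hS : ∀ l ∈ S, OP l)
    (hker : ∀ t : GaussianInt → ZMod 2,
      (∀ v ∈ S, gR v * t v + ∑ w ∈ S, gA v w * (t v + t w) = 0) → ∀ v ∈ S, t v = 0)
    {U : ZI} (hU : U3 U) {b : K} (hb : b ≠ 0)
    (h : ∀ v : HeightOneSpectrum (𝓞 K), ∃ y m : v.adicCompletion K, y ≠ 0 ∧
      algebraMap K (v.adicCompletion K) b * y ^ 2 = m ∧
        S1 0 (algebraMap K (v.adicCompletion K) (em0 e (BG U S))) m) :
    ∃ c : K, b = c ^ 2 ∨ b = em0 e (BG U S) * c ^ 2 := by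
  have hB0 : em0 e (BG U S) ≠ 0 := em0_ne e (BG_ne hS hU)
  obtain ⟨y, m, hy, hym, hm⟩ := h (plc e pi1_prime)
  have hpb : ph e pi1_prime b ≠ 0 := (map_ne_zero _).2 hb
  have hwB : vv (plc e pi1_prime) (ph e pi1_prime (em0 e (BG U S))) = exp (-3 : ℤ) := by
    rw [vv_coe, val_BG e hS hU]
  obtain ⟨g, hg0, hg⟩ := locF hwB hm
  have hym' : ph e pi1_prime b * y ^ 2 = m := hym
  rcases hg with hg | hg
  · obtain ⟨c, hc⟩ := selA e hS hker hU hb h ⟨y * g, by
      convert hg using 2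
      rw [← hym']
      ring⟩
    exact ⟨c, Or.inl hc⟩
  · obtain ⟨c, hc⟩ := selA e hS hker hU (b := em0 e (BG U S) / b) (div_ne_zero hB0 hb) (by
      intro v
      obtain ⟨y', m', hy', hym', hm'⟩ := h v
      have hpb' : algebraMap K (v.adicCompletion K) b ≠ 0 := (map_ne_zero _).2 hb
      have hpB' : algebraMap K (v.adicCompletion K) (em0 e (BG U S)) ≠ 0 := (map_ne_zero _).2 hB0
      refine ⟨1 / y', algebraMap K (v.adicCompletion K) (em0 e (BG U S)) / m',
        one_div_ne_zero hy', ?_, S1_dual hpB' hm'⟩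
      rw [← hym', map_div₀]
      field_simp) ⟨g / y, by
      convert hg using 2
      rw [← hym', map_div₀]
      field_simp⟩
    have hc0 : c ≠ 0 := by
      rintro rfl
      rw [zero_pow two_ne_zero] at hc
      exact div_ne_zero hB0 hb hc
    refine ⟨1 / c, Or.inr ?_⟩
    rw [div_pow, ← hc]
    field_simp

/-- there is at most one element of Sha killed by two, and the rank is zero -/
theorem sha_rankF {S : Finset GaussianInt} (hS : ∀ l ∈ S, OP l)
    (hker : ∀ t : GaussianInt → ZMod 2,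
      (∀ v ∈ S, gR v * t v + ∑ w ∈ S, gA v w * (t v + t w) = 0) → ∀ v ∈ S, t v = 0)
    {u : ZI} (hu : U3 u) {W : WeierstrassCurve K} (hT : IsT W 0 (em0 e (BG u S))) :
    Module.finrank ℤ (Pool.Agent.Y682.MP W) = 0 ∧
      ∀ x : Pool.Agent.TH841.NF.D.Sha W, 2 • x = 0 → x = 0 := by
  classical
  have hD0 : em0 e (BG u S) ≠ 0 := em0_ne e (BG_ne hS hu)
  let U : Set (Kˣ ⧸ Sq K) := {(1 : Kˣ ⧸ Sq K),
    ((Units.mk0 (em0 e (BG u S)) hD0 : Kˣ) : Kˣ ⧸ Sq K)}
  have hUf : U.Finite := Set.toFinite U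
  have hfin : Finite U := hUf.to_subtype
  have hU2 : Nat.card U ≤ 2 := by
    have h1 : U.ncard ≤ 2 := by
      refine (Set.ncard_insert_le _ _).trans ?_
      rw [Set.ncard_singleton]
    exact h1
  have key : ∀ b : Kˣ, (∃ c : K, (b : K) = c ^ 2 ∨ (b : K) = em0 e (BG u S) * c ^ 2) →
      (b : Kˣ ⧸ Sq K) ∈ U := by
    rintro b ⟨c, hc⟩
    have hc0 : c ≠ 0 := by
      rintro rfl
      rcases hc with hc | hc
      · rw [zero_pow two_ne_zero] at hc; exact b.ne_zero hc
      · rw [zero_pow two_ne_zero, mul_zero] at hc; exact b.ne_zero hc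
    rcases hc with hc | hc
    · left
      have h1 : (1 : Kˣ ⧸ Sq K) = ((1 : Kˣ) : Kˣ ⧸ Sq K) := rfl
      rw [h1, eq_comm, quot_eq]
      refine ⟨Units.mk0 c hc0, Units.ext ?_⟩
      rw [Units.val_mul, Units.val_one, one_mul, Units.val_pow_eq_pow_val, Units.val_mk0, hc]
    · right
      show (b : Kˣ ⧸ Sq K) = ((Units.mk0 (em0 e (BG u S)) hD0 : Kˣ) : Kˣ ⧸ Sq K)
      rw [eq_comm, quot_eq]
      refine ⟨Units.mk0 c hc0, Units.ext ?_⟩
      rw [Units.val_mul, Units.val_pow_eq_pow_val, Units.val_mk0, Units.val_mk0, hc]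
  have H1 : ∀ b : Kˣ, LL1 (0 : K) (em0 e (BG u S)) (b : K) → (b : Kˣ ⧸ Sq K) ∈ U := by
    intro b hb
    apply key
    apply selF e hS hker hu b.ne_zero
    intro v
    have := hb.1 v
    rwa [map_zero] at this
  have H2 : ∀ b : Kˣ, LL2 (0 : K) (em0 e (BG u S)) (b : K) → (b : Kˣ ⧸ Sq K) ∈ U := by
    intro b hb
    apply key
    apply selF e hS hker hu b.ne_zero
    intro v
    have := Pool.Agent.Y682.charZero_adic v
    have h1 := hb.1 v
    rw [map_zero] at h1
    refine S2_S1 (i := algebraMap K (v.adicCompletion K) (em0 e im1)) ?_ h1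
    rw [← map_pow, im1_sq, map_neg, map_one]
  obtain ⟨hf, hc⟩ := Zc_card hT (U := U) (V := U) (Or.inl rfl) H1 H2
  obtain ⟨h3, h4⟩ := Zc_lower hT
  have h6 : Nat.card (Zc W) ≤ 4 := hc.trans (by nlinarith)
  have h8 := h4.trans h6
  have hpos : 0 < Nat.card {x : Pool.Agent.TH841.NF.D.Sha W // 2 • x = 0} := by
    have : Nonempty {x : Pool.Agent.TH841.NF.D.Sha W // 2 • x = 0} := ⟨⟨0, smul_zero _⟩⟩
    exact Nat.card_pos
  constructor
  · by_contra hne
    have h7 : 2 ≤ 2 ^ (Module.finrank ℤ (Pool.Agent.Y682.MP W)) := by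
      calc 2 = 2 ^ 1 := by norm_num
        _ ≤ _ := Nat.pow_le_pow_right (by norm_num) (by omega)
    nlinarith
  · intro x hx
    have h5 : Nat.card {x : Pool.Agent.TH841.NF.D.Sha W // 2 • x = 0} ≤ 1 := by
      have h7 : 1 ≤ 2 ^ (Module.finrank ℤ (Pool.Agent.Y682.MP W)) := Nat.one_le_two_pow
      nlinarith
    have h6 : Subsingleton {x : Pool.Agent.TH841.NF.D.Sha W // 2 • x = 0} :=
      Finite.card_le_one_iff_subsingleton.1 h5
    have h7 := @Subsingleton.elim _ h6 ⟨x, hx⟩ ⟨0, smul_zero _⟩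
    exact congrArg Subtype.val h7

end

/-- **SHAG** -/
theorem t_SHAG : S_SHAG := by
  intro K _ _ e u hu S hS hker W hT
  exact sha_rankF e hS hker hu hT

end Pool.Agent.E8helper51.F3
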